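import Pool.Agent.STN.Small
import Pool.Agent.STN.Data

/-!
# Stein's problem of 1975: the orders for which it is true

Every `n` by `n` array in which every symbol occurs in at most `n - 1` cells has a latin transversal
if and only if `n ≤ 4`.
-/

set_option autoImplicit false

namespace Pool.Agent.Results.MP_4f9096_co.AllOrders

open Finset

/-- Every `n`-square in which each symbol occurs in at most `n - 1` cells has a latin
transversal. -/
def Stein (n : ℕ) : Prop := ∀ A : Fin n → Fin n → ℕ,
  (∀ s : ℕ, (univ.filter fun p : Fin n × Fin n => A p.1 p.2 = s).card ≤ n - 1) →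
    ∃ σ : Equiv.Perm (Fin n), Function.Injective fun i => A i (σ i)

/-- Stein's statement of 1975 is true for the orders up to 4 and false for all larger orders. -/
theorem result : ∀ n : ℕ, Stein n ↔ n ≤ 4 := by
  intro n
  constructor
  · intro h
    by_contra hn
    have h' : Pool.Agent.STN.Stein n := h
    obtain rfl | rfl | rfl | h8 : n = 5 ∨ n = 6 ∨ n = 7 ∨ 8 ≤ n := by omega
    · exact Pool.Agent.STN.not_stein5 h'
    · exact Pool.Agent.STN.not_stein6 h'
    · exact Pool.Agent.STN.not_stein7 h'
    · exact Pool.Agent.STN.not_stein_large h8 h'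
  · intro hn
    exact Pool.Agent.STN.stein_small hn

end Pool.Agent.Results.MP_4f9096_co.AllOrders
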